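import Pool.Agent.K7.H16.SG.Stm

set_option autoImplicit false

open Finset

namespace Pool.Agent.K7.H43.SGREC2

open Pool.Agent.K7.H16.SG

/-- `D` of a set with a largest element -/
theorem Dlast (hF0 : StF0) (hW : StW) (C : Finset ℕ) (M : ℕ) (hC : ∀ a ∈ C, a < M) :
    D (insert M C) = ∑ u ∈ words C, f (u ++ [M]) ^ 2 := by
  have hMC : M ∉ C := fun h => lt_irrefl _ (hC M h)
  unfold D
  symm
  apply Finset.sum_of_injOn (fun u => u ++ [M])
  · intro a _ b _ h
    exact List.append_cancel_right h
  · intro u hu
    have h1 := (hW.1 C u).1 (mem_coe.1 hu)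
    refine mem_coe.2 ((hW.1 _ _).2 ⟨?_, ?_⟩)
    · rw [List.nodup_append]
      refine ⟨h1.1, by simp, ?_⟩
      intro a ha b hb h
      rw [List.mem_singleton] at hb
      subst hb
      subst h
      apply hMC
      rw [← h1.2]
      exact List.mem_toFinset.2 ha
    · ext x
      simp only [List.toFinset_append, mem_union, mem_insert, h1.2, List.toFinset_cons,
        List.toFinset_nil, insert_empty_eq, mem_singleton]
      tauto
  · intro w hw hnot
    by_contra hne
    have h1 := (hW.1 _ w).1 hw
    have hf : f w ≠ 0 := by
      intro h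
      apply hne
      rw [h]
      rfl
    have hw0 : w ≠ [] := by
      rintro rfl
      have : M ∈ (insert M C) := mem_insert_self _ _
      rw [← h1.2] at this
      simp at this
    obtain ⟨τ, m, hτ, hlt⟩ := hF0 w h1.1 hf hw0
    subst hτ
    have hnd := h1.1
    have hset := h1.2
    have hmM : m = M := by
      have hM : M ∈ (τ ++ [m]).toFinset := by rw [hset]; exact mem_insert_self _ _
      rw [List.mem_toFinset, List.mem_append, List.mem_singleton] at hM
      rcases hM with h | h
      · have h3 : m ∈ (τ ++ [m]).toFinset := by simp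
        rw [hset, mem_insert] at h3
        rcases h3 with h3 | h3
        · exact h3
        · have := hlt M h
          have := hC m h3
          omega
      · exact h.symm
    subst hmM
    apply hnot
    refine ⟨τ, mem_coe.2 ((hW.1 _ _).2 ⟨?_, ?_⟩), rfl⟩
    · exact (List.nodup_append.1 hnd).1
    · ext x
      constructor
      · intro hx
        have hx' := List.mem_toFinset.1 hx
        have h4 : x ∈ (τ ++ [m]).toFinset := by simp [hx']
        rw [hset, mem_insert] at h4
        rcases h4 with h4 | h4
        · have := hlt x hx'
          omega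
        · exact h4
      · intro hx
        have h4 : x ∈ insert m C := mem_insert_of_mem hx
        rw [← hset] at h4
        rw [List.mem_toFinset, List.mem_append, List.mem_singleton] at h4
        rcases h4 with h4 | h4
        · exact List.mem_toFinset.2 h4
        · have := hC x hx
          omega
  · intro u _
    rfl

theorem fzero (hF0 : StF0) (x y : List ℕ) (M' : ℕ) (hy : y ≠ []) (hnd : (x ++ M' :: y).Nodup)
    (hlt : ∀ a ∈ y, a < M') : f (x ++ M' :: y) = 0 := by
  by_contra hne
  obtain ⟨τ, m, hτ, hlt'⟩ := hF0 _ hnd hne (by simp)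
  rcases List.eq_nil_or_concat y with h | ⟨y', b, h⟩
  · exact hy h
  · subst h
    rw [List.concat_eq_append] at hτ hlt
    have e : x ++ M' :: (y' ++ [b]) = (x ++ M' :: y') ++ [b] := by simp
    rw [e] at hτ
    obtain ⟨h1, h2⟩ := List.append_inj' hτ rfl
    have h3 := hlt b (by simp)
    have h4 := hlt' M' (by rw [← h1]; simp)
    rw [List.cons.injEq] at h2
    omega

/-- splitting the words at `M'` -/
theorem split (hW : StW) (A : Finset ℕ) (M' : ℕ) (hM' : M' ∉ A) (F : List ℕ → ℕ) :
    ∑ w ∈ words (insert M' A), F w =
      ∑ B ∈ A.powerset, ∑ u ∈ words B, ∑ v ∈ words (A \ B), F (u ++ M' :: v) := by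
  have e : ∀ B ∈ A.powerset, ∑ u ∈ words B, ∑ v ∈ words (A \ B), F (u ++ M' :: v) =
      ∑ q ∈ words B ×ˢ words (A \ B), F (q.1 ++ M' :: q.2) := by
    intro B _
    rw [Finset.sum_product]
  rw [Finset.sum_congr rfl e, Finset.sum_sigma']
  symm
  apply Finset.sum_nbij (fun x : (_ : Finset ℕ) × (List ℕ × List ℕ) => x.2.1 ++ M' :: x.2.2)
  · rintro ⟨B, u, v⟩ h
    simp only [mem_sigma, mem_powerset, mem_product] at h
    obtain ⟨hB, hu, hv⟩ := h
    have hu' := (hW.1 _ _).1 hu
    have hv' := (hW.1 _ _).1 hv
    refine (hW.1 _ _).2 ⟨?_, ?_⟩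
    · simp only
      rw [List.nodup_append]
      refine ⟨hu'.1, ?_, ?_⟩
      · rw [List.nodup_cons]
        refine ⟨?_, hv'.1⟩
        intro h1
        have : M' ∈ v.toFinset := List.mem_toFinset.2 h1
        rw [hv'.2, mem_sdiff] at this
        exact hM' this.1
      · intro a ha b hb hab
        subst hab
        have h1 : a ∈ B := by rw [← hu'.2]; exact List.mem_toFinset.2 ha
        rw [List.mem_cons] at hb
        rcases hb with hb | hb
        · subst hb
          exact hM' (hB h1)
        · have h2 : a ∈ A \ B := by rw [← hv'.2]; exact List.mem_toFinset.2 hb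
          exact (mem_sdiff.1 h2).2 h1
    · ext x
      simp only [List.toFinset_append, List.toFinset_cons, mem_union, mem_insert, hu'.2, hv'.2,
        mem_sdiff]
      constructor
      · rintro (h1 | h1 | h1)
        · exact Or.inr (hB h1)
        · exact Or.inl h1
        · exact Or.inr h1.1
      · rintro (h1 | h1)
        · exact Or.inr (Or.inl h1)
        · by_cases h2 : x ∈ B
          · exact Or.inl h2
          · exact Or.inr (Or.inr ⟨h1, h2⟩)
  · rintro ⟨B, u, v⟩ h ⟨B', u', v'⟩ h' heq
    simp only [coe_sigma, Set.mem_sigma_iff, mem_coe, mem_powerset, mem_product] at h h'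
    obtain ⟨hB, hu, hv⟩ := h
    obtain ⟨hB', hu', hv'⟩ := h'
    have hu := (hW.1 _ _).1 hu
    have hv := (hW.1 _ _).1 hv
    have hu' := (hW.1 _ _).1 hu'
    have n1 : M' ∉ u := by
      intro h1
      have : M' ∈ B := by rw [← hu.2]; exact List.mem_toFinset.2 h1
      exact hM' (hB this)
    have n2 : M' ∉ v := by
      intro h1
      have : M' ∈ A \ B := by rw [← hv.2]; exact List.mem_toFinset.2 h1
      exact hM' (mem_sdiff.1 this).1
    simp only at heq
    obtain ⟨h1, -, h2⟩ := (List.append_cons_inj_of_notMem n1 n2).1 heq
    subst h1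
    subst h2
    have h3 : B = B' := by rw [← hu.2, ← hu'.2]
    subst h3
    rfl
  · intro w hw
    have hw' := (hW.1 _ _).1 (mem_coe.1 hw)
    have h1 : M' ∈ w := by
      rw [← List.mem_toFinset, hw'.2]
      exact mem_insert_self _ _
    obtain ⟨u, v, rfl⟩ := List.append_of_mem h1
    have hnd := hw'.1
    rw [List.nodup_append, List.nodup_cons] at hnd
    obtain ⟨hu, ⟨hMv, hv⟩, huv⟩ := hnd
    have hMu : M' ∉ u := fun h => huv M' h M' (by simp) rfl
    have hset := hw'.2
    have hBA : u.toFinset ⊆ A := by
      intro x hx
      have hx' := List.mem_toFinset.1 hx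
      have : x ∈ (u ++ M' :: v).toFinset := by simp [hx']
      rw [hset, mem_insert] at this
      rcases this with h | h
      · subst h
        exact absurd hx' hMu
      · exact h
    refine ⟨⟨u.toFinset, u, v⟩, ?_, rfl⟩
    simp only [coe_sigma, Set.mem_sigma_iff, mem_coe, mem_powerset, mem_product]
    refine ⟨hBA, (hW.1 _ _).2 ⟨hu, rfl⟩, (hW.1 _ _).2 ⟨hv, ?_⟩⟩
    ext x
    rw [mem_sdiff]
    constructor
    · intro hx
      have hx' := List.mem_toFinset.1 hx
      have : x ∈ (u ++ M' :: v).toFinset := by simp [hx']
      rw [hset, mem_insert] at this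
      refine ⟨?_, ?_⟩
      · rcases this with h | h
        · subst h
          exact absurd hx' hMv
        · exact h
      · intro h
        exact huv x (List.mem_toFinset.1 h) x (by simp [hx']) rfl
    · rintro ⟨hxA, hxu⟩
      have : x ∈ (u ++ M' :: v).toFinset := by rw [hset]; exact mem_insert_of_mem hxA
      rw [List.mem_toFinset, List.mem_append, List.mem_cons] at this
      rcases this with h | h | h
      · exact absurd (List.mem_toFinset.2 h) hxu
      · subst h
        exact absurd hxA hM'
      · exact List.mem_toFinset.2 h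
  · intro x _
    rfl

theorem t (hF1 : StF1) (hF0 : StF0) (hW : StW) (hSpl : StSpl) : StRec2 := by
  intro A M' M hA hM
  have hM'A : M' ∉ A := fun h => lt_irrefl _ (hA M' h)
  have hltM : ∀ a ∈ insert M' A, a < M := by
    intro a ha
    rw [mem_insert] at ha
    rcases ha with h | h
    · omega
    · exact (hA a h).trans hM
  rw [Dlast hF0 hW _ M hltM, split hW A M' hM'A]
  rw [← Finset.sum_erase_add _ _ (mem_powerset_self A)]
  apply add_le_add
  · -- proper subsets
    apply Finset.sum_le_sum
    intro B hB
    rw [mem_erase, mem_powerset] at hB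
    obtain ⟨hBne, hBA⟩ := hB
    have hBlt : ∀ a ∈ B, a < M' := fun a ha => hA a (hBA ha)
    rw [Dlast hF0 hW B M' hBlt]
    unfold D
    rw [Finset.sum_mul_sum]
    apply Finset.sum_le_sum
    intro u hu
    apply Finset.sum_le_sum
    intro v hv
    have hu' := (hW.1 _ _).1 hu
    have hv' := (hW.1 _ _).1 hv
    have hvne : v ≠ [] := by
      rintro rfl
      have h1 : A \ B = ∅ := by rw [← hv'.2]; rfl
      exact hBne (Subset.antisymm hBA (sdiff_eq_empty_iff_subset.1 h1))
    have hvlt : ∀ a ∈ v, a < M' := by
      intro a ha
      have : a ∈ A \ B := by rw [← hv'.2]; exact List.mem_toFinset.2 ha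
      exact hA a (mem_sdiff.1 this).1
    have hmemw : u ++ M' :: v ∈ words (insert M' A) := by
      refine (hW.1 _ _).2 ⟨?_, ?_⟩
      · rw [List.nodup_append]
        refine ⟨hu'.1, ?_, ?_⟩
        · rw [List.nodup_cons]
          exact ⟨fun h => lt_irrefl _ (hvlt M' h), hv'.1⟩
        · intro a ha b hb hab
          subst hab
          have h1 : a ∈ B := by rw [← hu'.2]; exact List.mem_toFinset.2 ha
          rw [List.mem_cons] at hb
          rcases hb with hb | hb
          · subst hb
            exact hM'A (hBA h1)
          · have h2 : a ∈ A \ B := by rw [← hv'.2]; exact List.mem_toFinset.2 hb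
            exact (mem_sdiff.1 h2).2 h1
      · ext x
        simp only [List.toFinset_append, List.toFinset_cons, mem_union, mem_insert, hu'.2, hv'.2,
          mem_sdiff]
        constructor
        · rintro (h1 | h1 | h1)
          · exact Or.inr (hBA h1)
          · exact Or.inl h1
          · exact Or.inr h1.1
        · rintro (h1 | h1)
          · exact Or.inr (Or.inl h1)
          · by_cases h2 : x ∈ B
            · exact Or.inl h2
            · exact Or.inr (Or.inr ⟨h1, h2⟩)
    have hw' := (hW.1 _ _).1 hmemw
    have hwlt : ∀ a ∈ u ++ M' :: v, a < M := by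
      intro a ha
      apply hltM
      rw [← hw'.2]
      exact List.mem_toFinset.2 ha
    rw [hF1 (u ++ M' :: v) M hw'.1 hwlt, ← mul_pow]
    rw [Finset.sum_eq_single (u.length + 1)]
    · have e1 : (u ++ M' :: v).take (u.length + 1) = u ++ [M'] := by
        have : u ++ M' :: v = (u ++ [M']) ++ v := by simp
        rw [this]
        have h2 : u.length + 1 = (u ++ [M']).length := by simp
        rw [h2, List.take_left']
        rfl
      have e2 : (u ++ M' :: v).drop (u.length + 1) = v := by
        have : u ++ M' :: v = (u ++ [M']) ++ v := by simp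
        rw [this]
        have h2 : u.length + 1 = (u ++ [M']).length := by simp
        rw [h2, List.drop_left']
        rfl
      rw [e1, e2]
    · intro i _ hi
      rcases Nat.lt_or_ge i (u.length + 1) with h | h
      · have e2 : (u ++ M' :: v).drop i = u.drop i ++ M' :: v := by
          rw [List.drop_append_of_le_length (by omega)]
        rw [e2, fzero hF0 _ _ M' hvne ?_ hvlt, mul_zero]
        rw [← e2]
        exact hw'.1.sublist (List.drop_sublist _ _)
      · obtain ⟨k, rfl⟩ : ∃ k, i = u.length + (k + 2) := ⟨i - u.length - 2, by omega⟩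
        have e1 : (u ++ M' :: v).take (u.length + (k + 2)) = u ++ M' :: v.take (k + 1) := by
          rw [List.take_length_add_append]
          simp
        rw [e1, fzero hF0 _ _ M' ?_ ?_ ?_, zero_mul]
        · cases v with
          | nil => exact absurd rfl hvne
          | cons a v => simp
        · rw [← e1]
          exact hw'.1.sublist (List.take_sublist _ _)
        · intro a ha
          exact hvlt a (List.mem_of_mem_take ha)
    · intro h
      exfalso
      apply h
      rw [mem_range, List.length_append, List.length_cons]
      omega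
  · -- the full set
    have e0 : A \ A = ∅ := Finset.sdiff_self A
    rw [e0, hW.2.1]
    simp only [Finset.sum_singleton]
    have step : ∀ u ∈ words A, f (u ++ M' :: [] ++ [M]) ^ 2 ≤
        (A.card + 2) * (∑ i ∈ range (A.card + 1), f (u.take i) ^ 2 * f (u.drop i ++ [M']) ^ 2 +
          f (u ++ [M']) ^ 2) := by
      intro u hu
      have hu' := (hW.1 _ _).1 hu
      have hlen : u.length = A.card := by
        rw [← hu'.2, List.toFinset_card_of_nodup hu'.1]
      have hnd : (u ++ [M']).Nodup := by
        rw [List.nodup_append]
        refine ⟨hu'.1, by simp, ?_⟩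
        intro a ha b hb h
        rw [List.mem_singleton] at hb
        subst hb
        subst h
        apply hM'A
        rw [← hu'.2]
        exact List.mem_toFinset.2 ha
      have hlt2 : ∀ a ∈ u ++ [M'], a < M := by
        intro a ha
        apply hltM
        rw [List.mem_append, List.mem_singleton] at ha
        rcases ha with h | h
        · apply mem_insert_of_mem
          rw [← hu'.2]
          exact List.mem_toFinset.2 h
        · subst h
          exact mem_insert_self _ _
      rw [hF1 (u ++ [M']) M hnd hlt2]
      have hl2 : (u ++ [M']).length + 1 = A.card + 2 := by simp [hlen]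
      rw [hl2]
      have h1 := sq_sum_le_card_mul_sum_sq (s := range (A.card + 2))
        (f := fun i => f ((u ++ [M']).take i) * f ((u ++ [M']).drop i))
      rw [card_range] at h1
      refine h1.trans (Nat.mul_le_mul_left _ ?_)
      rw [Finset.sum_range_succ]
      apply add_le_add
      · apply Finset.sum_le_sum
        intro i hi
        rw [mem_range] at hi
        rw [mul_pow, List.take_append_of_le_length (by omega),
          List.drop_append_of_le_length (by omega)]
      · have e1 : (u ++ [M']).take (A.card + 1) = u ++ [M'] := by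
          apply List.take_of_length_le
          simp [hlen]
        have e2 : (u ++ [M']).drop (A.card + 1) = [] := by
          apply List.drop_eq_nil_of_le
          simp [hlen]
        rw [e1, e2, hW.2.2.1, mul_one]
    refine (Finset.sum_le_sum step).trans ?_
    rw [← Finset.mul_sum]
    apply Nat.mul_le_mul_left
    rw [Finset.sum_add_distrib, Dlast hF0 hW A M' hA]
    apply add_le_add _ le_rfl
    rw [Finset.sum_comm, Finset.sum_powerset]
    apply Finset.sum_le_sum
    intro i hi
    rw [mem_range] at hi
    have h1 := hSpl A i (fun u => f u ^ 2) (fun v => f (v ++ [M']) ^ 2) (by omega)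
    refine (le_of_eq h1).trans ?_
    apply Finset.sum_le_sum
    intro B _
    rw [Dlast hF0 hW (A \ B) M' (fun a ha => hA a (mem_sdiff.1 ha).1)]
    exact le_of_eq rfl

end Pool.Agent.K7.H43.SGREC2
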